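import Pool.Agent.N410.LD.Sizes
import Pool.Agent.N410.LD.Tame
import Pool.Agent.R61.TotThree

/-!
# Extending total colourings of matchings when large vertices have few large neighbours

Let `G` have maximum degree `Δ`. We show that total colourings of matchings with `Δ + 3` colours
extend to `G` if, for some `k`, the vertices of degree more than `k` do not have too many neighbours
of degree more than `k`.
-/

set_option autoImplicit false

namespace Pool.Agent.Results.MP_0d3379_co.LocalDegreesMatching

/-- `f` (on the vertices) and `g` (on the edges) form a total colouring of `G` with colours from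
`Fin k`. (The values of `g` on pairs that are not edges are irrelevant.) -/
def IsTotal {V : Type} (G : SimpleGraph V) {k : ℕ} (f : V → Fin k) (g : Sym2 V → Fin k) : Prop :=
  (∀ u v, G.Adj u v → f u ≠ f v) ∧
  (∀ u v w, G.Adj u v → G.Adj u w → v ≠ w → g s(u, v) ≠ g s(u, w)) ∧
  ∀ u v, G.Adj u v → g s(u, v) ≠ f u

/-- Every total colouring of `H` in `G` with `k` colours extends to a total colouring of `G` with `k`
colours. -/
def AllExtend {V : Type} (G H : SimpleGraph V) (k : ℕ) : Prop :=
  ∀ (f0 : V → Fin k) (g0 : Sym2 V → Fin k), IsTotal H f0 g0 →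
    (∀ u v, (∃ x, H.Adj u x) → (∃ y, H.Adj v y) → G.Adj u v → f0 u ≠ f0 v) →
    ∃ (f : V → Fin k) (g : Sym2 V → Fin k), IsTotal G f g ∧
      ∀ u v, H.Adj u v → f u = f0 u ∧ g s(u, v) = g0 s(u, v)

/-- The number of neighbours of `v`. -/
noncomputable def deg {V : Type} (G : SimpleGraph V) (v : V) : ℕ := (G.neighborSet v).ncard

/-- The number of neighbours of `v` in `W`. -/
noncomputable def degIn {V : Type} (G : SimpleGraph V) (W : Set V) (v : V) : ℕ :=
  (G.neighborSet v ∩ W).ncard

/-- The error term `K (1 + log D) √(D log M)`. -/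
noncomputable def slack (K : ℝ) (M D : ℕ) : ℝ :=
  K * (1 + Real.log D) * Real.sqrt (D * Real.log M)

/-- There is a constant `K` and for every `ε > 0` there is `n₀` such that the following holds for
every finite simple graph `G` all of whose degrees are at most `D`. Each of the conditions (1), (2)
implies that for every subgraph `H` of `G` which is a matching every total colouring of `H` in `G`
with `D + 3` colours extends to `G`.

(1) There are `k ≤ D / 2` and `M` such that every vertex of degree more than `k` has at most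
`D - k - 1` neighbours of degree more than `k`, the components of the graph `F` induced by the
vertices of degree more than `k` have at most `M` vertices, and `K (√(D log M) + log M) ≤ k`, or
`M ≥ n₀` and `ε √(M log M) ≤ k`.

(2) There are `k` and `M` such that the components of `G` have at most `M` vertices and, for
`s = K (1 + log D) √(D log M)`, every vertex of degree at most `k` has at most `D - k - s - 1`
neighbours of degree more than `k`, and every vertex of degree more than `k` has at most `D - s - 1`
and at most `k + s` neighbours of degree more than `k`. -/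
theorem result : ∃ K : ℝ, ∀ ε : ℝ, 0 < ε → ∃ n₀ : ℕ, ∀ (V : Type) [Fintype V]
    (G : SimpleGraph V) (D : ℕ), (∀ v, deg G v ≤ D) →
    ((∃ (k M : ℕ) (F : SimpleGraph V), 2 * k ≤ D ∧
        (∀ u v, F.Adj u v ↔ G.Adj u v ∧ k < deg G u ∧ k < deg G v) ∧
        (∀ v, {w | F.Reachable v w}.ncard ≤ M) ∧
        (∀ v, k < deg G v → degIn G {w | k < deg G w} v + k + 1 ≤ D) ∧
        (K * (Real.sqrt (D * Real.log M) + Real.log M) ≤ k ∨
          n₀ ≤ M ∧ ε * Real.sqrt (M * Real.log M) ≤ k)) ∨
      (∃ (k M : ℕ), (∀ v, {w | G.Reachable v w}.ncard ≤ M) ∧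
        (∀ v, deg G v ≤ k →
          (degIn G {w | k < deg G w} v : ℝ) + k + slack K M D + 1 ≤ D) ∧
        (∀ v, k < deg G v →
          (degIn G {w | k < deg G w} v : ℝ) + slack K M D + 1 ≤ D ∧
          (degIn G {w | k < deg G w} v : ℝ) ≤ k + slack K M D))) →
    ∀ H : SimpleGraph V, H ≤ G → (∀ u v w, H.Adj u v → H.Adj u w → v = w) →
      AllExtend G H (D + 3) := by
  classical
  obtain ⟨K₁, hK₁, hloc⟩ := Pool.Agent.N410.LD.local_sqrt
  obtain ⟨K₂, hK₂, htame⟩ := Pool.Agent.N410.LD.ch_tame
  refine ⟨max K₁ K₂, fun ε hε => ?_⟩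
  obtain ⟨n₀, hn⟩ := htame ε hε
  refine ⟨n₀, ?_⟩
  intro V _ G D hD hyp Hm hHG hm f0 g0 h0 hprop
  refine Pool.Agent.R61.TotExt.plus3 G Hm D hD hHG hm f0 g0 h0 hprop ?_
  intro L hsys
  have hs : ∀ M : ℕ, Pool.Agent.N410.LD.slk K₁ M D ≤ slack (max K₁ K₂) M D := by
    intro M
    unfold slack Pool.Agent.N410.LD.slk
    have h1 : 0 ≤ Real.log D := Real.log_natCast_nonneg _
    have h2 : 0 ≤ Real.sqrt (D * Real.log M) := Real.sqrt_nonneg _
    apply mul_le_mul_of_nonneg_right _ h2
    exact mul_le_mul_of_nonneg_right (le_max_left _ _) (by linarith)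
  have hG' : G \ Hm ≤ G := sdiff_le
  have hdL : ∀ u v, (G \ Hm).Adj u v → Pool.Agent.TH559.LE.dg (G \ Hm) u ≤ (L s(u, v)).card :=
    fun u v huv => hsys.le huv
  have hL0 : ∀ u v, (G \ Hm).Adj u v → D ≤ (L s(u, v)).card + 1 := hsys.l0
  have hdG : ∀ v, Pool.Agent.TH559.LE.dg (G \ Hm) v ≤ deg G v :=
    fun v => Pool.Agent.TH559.LE.dg_mono hG' v
  have hdW : ∀ (W : Set V) (v : V), ((G \ Hm).neighborSet v ∩ W).ncard ≤ degIn G W v := by
    intro W v
    apply Set.ncard_le_ncard _ (Set.toFinite _)
    rintro x ⟨hx, hx'⟩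
    exact ⟨hG' hx, hx'⟩
  have hWd : ∀ (W : Set V) (v : V), degIn G W v ≤ deg G v := fun W v =>
    Set.ncard_le_ncard Set.inter_subset_left (Set.toFinite _)
  rcases hyp with ⟨k, M, F, h2k, hF, hM, hk, hcase⟩ | ⟨k, M, hM, hk1, hk2⟩
  · -- (1)
    set W : Set V := {w | k < deg G w} with hW
    have hmem : ∀ v, v ∈ W ↔ k < deg G v := fun v => Iff.rfl
    let F' : SimpleGraph V :=
      { Adj := fun a b => (G \ Hm).Adj a b ∧ a ∈ W ∧ b ∈ W
        symm := ⟨fun a b h => ⟨h.1.symm, h.2.2, h.2.1⟩⟩
        loopless := ⟨fun a h => (G \ Hm).loopless.irrefl a h.1⟩ }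
    have hF'F : F' ≤ F := fun a b h => (hF a b).2 ⟨hG' h.1, h.2.1, h.2.2⟩
    refine Pool.Agent.N410.LD.of_parts_sizes (G \ Hm) F' ⊥ W L hdL (fun _ _ => Iff.rfl)
      (fun u v h => absurd h (by simp)) ?_ ?_ ?_
      (fun L' _ => Pool.Agent.TH559.LE.ok_bot L')
    · intro u v huv hu hv _
      have h1 := hdG u
      have h2 := hdG v
      have h3 := hL0 u v huv
      rw [hmem] at hu hv
      omega
    · intro u w huw hu hw
      have h1 := hdW W u
      have h2 := hdW W w
      have h3 := hL0 u w huw
      have h4 := hk w hw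
      have h5 := hWd W u
      rw [hmem] at hu
      omega
    · by_cases hWne : ∃ v, k < deg G v
      swap
      · refine ⟨fun _ => 0, fun u v h => absurd ⟨u, h.2.1⟩ hWne,
          fun u v w h => absurd ⟨u, h.2.1⟩ hWne⟩
      obtain ⟨v₀, hv₀⟩ := hWne
      have hkD : k + 1 ≤ D := by
        have := hk v₀ hv₀
        omega
      have hFd : ∀ v, Pool.Agent.TH559.LE.dg F' v ≤ D - k - 1 := by
        intro v
        by_cases hv : k < deg G v
        · have h3 := hk v hv
          have h4 : Pool.Agent.TH559.LE.dg F' v ≤ degIn G W v := by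
            apply Set.ncard_le_ncard _ (Set.toFinite _)
            intro x hx
            exact ⟨hG' hx.1, hx.2.2⟩
          omega
        · have h4 : Pool.Agent.TH559.LE.dg F' v = 0 := by
            rw [Pool.Agent.TH559.LE.dg, Set.ncard_eq_zero (Set.toFinite _)]
            ext w
            simp only [SimpleGraph.mem_neighborSet, Set.mem_empty_iff_false, iff_false]
            intro h
            exact hv h.2.1
          omega
      have hch : Pool.Agent.TH559.LE.Choosable F' (D - 1) := by
        apply hn V F' (D - 1)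
        intro v
        refine ⟨D - k - 1, M, fun w => ?_, ?_, ?_⟩
        · exact (Pool.Agent.TH559.LE.dg_mono (Pool.Agent.TH559.LE.comp_le F' v) w).trans (hFd w)
        · refine le_trans (Set.ncard_le_ncard ?_ (Set.toFinite _)) (hM v)
          intro w hw
          exact SimpleGraph.Reachable.mono hF'F hw
        · have hc1 : ((D - k - 1 : ℕ) : ℝ) = (D : ℝ) - k - 1 := by
            rw [Nat.sub_sub, Nat.cast_sub hkD]
            push_cast
            ring
          have hc2 : ((D - 1 : ℕ) : ℝ) = (D : ℝ) - 1 := by
            rw [Nat.cast_sub (by omega)]; norm_num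
          have hk0 : (0 : ℝ) ≤ k := Nat.cast_nonneg _
          rcases hcase with h | ⟨h, h'⟩
          · right; left
            rw [hc1, hc2]
            have h3 : Real.sqrt (((D : ℝ) - k - 1) * Real.log M) ≤
                Real.sqrt (D * Real.log M) := by
              apply Real.sqrt_le_sqrt
              apply mul_le_mul_of_nonneg_right _ (Real.log_natCast_nonneg _)
              linarith
            have h0 : 0 ≤ Real.sqrt (D * Real.log M) + Real.log M :=
              add_nonneg (Real.sqrt_nonneg _) (Real.log_natCast_nonneg _)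
            have h4 : K₂ * (Real.sqrt (((D : ℝ) - k - 1) * Real.log M) + Real.log M) ≤
                K₂ * (Real.sqrt (D * Real.log M) + Real.log M) := by
              apply mul_le_mul_of_nonneg_left _ (by linarith)
              linarith
            have h5 : K₂ * (Real.sqrt (D * Real.log M) + Real.log M) ≤
                max K₁ K₂ * (Real.sqrt (D * Real.log M) + Real.log M) :=
              mul_le_mul_of_nonneg_right (le_max_right _ _) h0
            linarith
          · right; right; left
            refine ⟨h, ?_⟩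
            rw [hc1, hc2]
            linarith
      apply (Pool.Agent.TH559.LE.choosable_iff F' (D - 1)).1 hch L
      intro u v huv
      have := hL0 u v huv.1
      omega
  · -- (2)
    set W : Set V := {w | k < deg G w} with hW
    have hmem : ∀ v, v ∈ W ↔ k < deg G v := fun v => Iff.rfl
    let F' : SimpleGraph V :=
      { Adj := fun a b => (G \ Hm).Adj a b ∧ a ∈ W ∧ b ∈ W
        symm := ⟨fun a b h => ⟨h.1.symm, h.2.2, h.2.1⟩⟩
        loopless := ⟨fun a h => (G \ Hm).loopless.irrefl a h.1⟩ }
    let H' : SimpleGraph V :=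
      { Adj := fun a b => (G \ Hm).Adj a b ∧ a ∉ W ∧ b ∉ W
        symm := ⟨fun a b h => ⟨h.1.symm, h.2.2, h.2.1⟩⟩
        loopless := ⟨fun a h => (G \ Hm).loopless.irrefl a h.1⟩ }
    have hF'G : F' ≤ G := fun a b h => hG' h.1
    have hH'G : H' ≤ G := fun a b h => hG' h.1
    have hlist : ∀ (F : SimpleGraph V) (L' : Sym2 V → Finset ℕ), F ≤ G →
        (∀ u v, F.Adj u v →
          (Pool.Agent.TH559.LE.dg F u : ℝ) + slack (max K₁ K₂) M D ≤ (L' s(u, v)).card) →
        ∃ c, Pool.Agent.TH559.LE.Ok F L' c := by
      intro F L' hF hL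
      apply hloc V F M D L' (fun v => (Pool.Agent.TH559.LE.dg_mono hF v).trans (hD v))
      · intro v
        refine le_trans (Set.ncard_le_ncard ?_ (Set.toFinite _)) (hM v)
        intro w hw
        exact SimpleGraph.Reachable.mono hF hw
      · intro u v huv
        have h1 := hL u v huv
        have h2 := hs M
        linarith
    refine Pool.Agent.N410.LD.of_parts_sizes (G \ Hm) F' H' W L hdL (fun _ _ => Iff.rfl)
      (fun u v h => h) (fun u v huv hu hv h => absurd ⟨huv, hu, hv⟩ h) ?_ ?_ ?_
    · intro u w huw hu hw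
      have h1 : (((G \ Hm).neighborSet u ∩ W).ncard : ℝ) ≤ degIn G W u := by
        exact_mod_cast hdW W u
      have h2 : (((G \ Hm).neighborSet w ∩ W).ncard : ℝ) ≤ degIn G W w := by
        exact_mod_cast hdW W w
      have h3 : (D : ℝ) ≤ (L s(u, w)).card + 1 := by exact_mod_cast hL0 u w huw
      have h4 := (hk2 w hw).2
      have h5 := hk1 u (by rw [hmem] at hu; omega)
      have h6 : ((((G \ Hm).neighborSet u ∩ W).ncard + ((G \ Hm).neighborSet w ∩ W).ncard : ℕ) : ℝ)
          ≤ ((L s(u, w)).card : ℕ) := by
        push_cast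
        linarith
      exact_mod_cast h6
    · apply hlist F' L hF'G
      intro u v huv
      have h1 : (Pool.Agent.TH559.LE.dg F' u : ℝ) ≤ degIn G W u := by
        have : Pool.Agent.TH559.LE.dg F' u ≤ degIn G W u := by
          apply Set.ncard_le_ncard _ (Set.toFinite _)
          intro x hx
          exact ⟨hG' hx.1, hx.2.2⟩
        exact_mod_cast this
      have h3 : (D : ℝ) ≤ (L s(u, v)).card + 1 := by exact_mod_cast hL0 u v huv.1
      have h4 := (hk2 u huv.2.1).1
      linarith
    · intro L' hL'
      apply hlist H' L' hH'G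
      intro u v huv
      have hu : deg G u ≤ k := by
        have := huv.2.1
        rw [hmem] at this
        omega
      have hv : deg G v ≤ k := by
        have := huv.2.2
        rw [hmem] at this
        omega
      have h3 : (D : ℝ) ≤ (L s(u, v)).card + 1 := by exact_mod_cast hL0 u v huv.1
      have h4 : ((L s(u, v)).card : ℝ) ≤ (L' s(u, v)).card +
          ((G \ Hm).neighborSet u ∩ W).ncard + ((G \ Hm).neighborSet v ∩ W).ncard := by
        exact_mod_cast hL' u v huv
      have h5 : (((G \ Hm).neighborSet v ∩ W).ncard : ℝ) ≤ degIn G W v := by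
        exact_mod_cast hdW W v
      have h6 := hk1 v hv
      have h7 : Pool.Agent.TH559.LE.dg H' u + ((G \ Hm).neighborSet u ∩ W).ncard ≤ k := by
        have h8 : Pool.Agent.TH559.LE.dg H' u ≤ ((G \ Hm).neighborSet u \ W).ncard := by
          apply Set.ncard_le_ncard _ (Set.toFinite _)
          intro x hx
          exact ⟨hx.1, hx.2.2⟩
        have h9 : ((G \ Hm).neighborSet u \ W).ncard + ((G \ Hm).neighborSet u ∩ W).ncard =
            Pool.Agent.TH559.LE.dg (G \ Hm) u := by
          rw [add_comm]
          exact Set.ncard_inter_add_ncard_sdiff_eq_ncard _ _ (Set.toFinite _)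
        have h10 := hdG u
        omega
      have h11 : (Pool.Agent.TH559.LE.dg H' u : ℝ) + ((G \ Hm).neighborSet u ∩ W).ncard ≤ k := by
        exact_mod_cast h7
      linarith

end Pool.Agent.Results.MP_0d3379_co.LocalDegreesMatching
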